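import Mathlib
import Pool.Agent.X217.CCTop
import Pool.Agent.Helper257.ForceCH

/-!
# Countably compact functional extensions exist under CH (MP_77d395_lc)
-/

namespace Pool.Agent.Results.MP_77d395_lc.ConsistentlyExists

open Set Cardinal
open Pool.Agent.Helper257.ForceCH (OmegaOnePreserved CHHolds)

open Classical in
/-- `Y` is (through `emb` and `star`) a functional extension of `X`, where `z`, `o` are the elements
`0`, `1` of `X`. -/
structure FunctionalExtension (X Y : Type) (z o : X) where
  /-- the inclusion of `X` in `Y` -/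
  emb : X → Y
  /-- the extension of functions -/
  star : (X → X) → (Y → Y)
  emb_injective : Function.Injective emb
  proper : ∃ y, ∀ x, emb x ≠ y
  star_emb : ∀ f x, star f (emb x) = emb (f x)
  comp : ∀ f g : X → X, star (g ∘ f) = star g ∘ star f
  equ : ∀ f g : X → X, star (fun x => if f x = g x then o else z) =
    fun y => if star f y = star g y then emb o else emb z
  dir : ∀ ξ η : Y, ∃ (p₁ p₂ : X → X) (ζ : Y), star p₁ ζ = ξ ∧ star p₂ ζ = η

variable {X Y : Type} {z o : X}

open Classical in
/-- The extension of a subset `A` of `X`: the points where the extension of the characteristic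
function of `A` takes the value `1`. -/
def FunctionalExtension.ext (E : FunctionalExtension X Y z o) (A : Set X) : Set Y :=
  {ξ | E.star (fun x => if x ∈ A then o else z) ξ = E.emb o}

/-- The S-topology. -/
@[reducible] def FunctionalExtension.STop (E : FunctionalExtension X Y z o) : TopologicalSpace Y :=
  TopologicalSpace.generateFrom {U | ∃ A : Set X, U = E.ext A}

/-- Countably compact spaces: Hausdorff, and every countable open cover has a finite subcover. -/
def CountablyCompact (Y : Type) (t : TopologicalSpace Y) : Prop :=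
  T2Space Y ∧ ∀ U : ℕ → Set Y, (∀ n, IsOpen (U n)) → ⋃ n, U n = Set.univ →
    ∃ N, ⋃ n ∈ Finset.range N, U n = Set.univ

open Pool.Agent.X217.CC Pool.Agent.X217.CCTop

open Classical in
/-- The functional extension carried by a good set of ultrafilters. -/
noncomputable def mk (T : Set BN) (hT : GoodSet T) (hne : ∃ u ∈ T, (u : Filter ℕ) ≤ Filter.cofinite) :
    FunctionalExtension ℕ T 0 1 where
  emb n := ⟨pure n, hT.princ n⟩
  star f u := ⟨u.1.map f, hT.img u.1 u.2 f⟩
  emb_injective a b h := Ultrafilter.pure_injective (congrArg Subtype.val h)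
  proper := by
    obtain ⟨u, hu, hc⟩ := hne
    refine ⟨⟨u, hu⟩, fun n h => ?_⟩
    have h1 : (pure n : BN) = u := congrArg Subtype.val h
    have h2 : ({n}ᶜ : Set ℕ) ∈ u := hc (Set.finite_singleton n).compl_mem_cofinite
    rw [← h1] at h2
    exact h2 rfl
  star_emb f n := Subtype.ext (Ultrafilter.map_pure f n)
  comp f g := by
    funext u
    exact Subtype.ext (Ultrafilter.map_map u.1 f g).symm
  equ f g := by
    funext u
    by_cases h : {n | f n = g n} ∈ u.1
    · have h1 : (⟨u.1.map f, hT.img u.1 u.2 f⟩ : T) = ⟨u.1.map g, hT.img u.1 u.2 g⟩ :=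
        Subtype.ext (map_congr' h)
      rw [if_pos h1]
      apply Subtype.ext
      apply map_eq_pure
      refine Filter.mem_of_superset h fun n hn => ?_
      exact if_pos hn
    · have h1 : (⟨u.1.map f, hT.img u.1 u.2 f⟩ : T) ≠ ⟨u.1.map g, hT.img u.1 u.2 g⟩ :=
        fun h2 => h (hT.haus u.1 u.2 f g (congrArg Subtype.val h2))
      rw [if_neg h1]
      apply Subtype.ext
      apply map_eq_pure
      have h3 := (Ultrafilter.compl_mem_iff_notMem).2 h
      refine Filter.mem_of_superset h3 fun n hn => ?_
      exact if_neg hn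
  dir u v := by
    obtain ⟨w, hw, h1, h2⟩ := hT.dir u.1 u.2 v.1 v.2
    exact ⟨_, _, ⟨w, hw⟩, Subtype.ext h1, Subtype.ext h2⟩

theorem mk_ext (T : Set BN) (hT : GoodSet T)
    (hne : ∃ u ∈ T, (u : Filter ℕ) ≤ Filter.cofinite) (A : Set ℕ) :
    (mk T hT hne).ext A = hat T A := by
  classical
  ext u
  constructor
  · intro h
    have h1 : u.1.map (fun x => if x ∈ A then 1 else 0) = pure 1 := congrArg Subtype.val h
    have h2 : ({1} : Set ℕ) ∈ u.1.map (fun x => if x ∈ A then 1 else 0) := by
      rw [h1]; exact Set.mem_singleton 1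
    have h3 : {x : ℕ | (if x ∈ A then 1 else 0) = 1} ∈ u.1 := h2
    refine Filter.mem_of_superset h3 fun x hx => ?_
    by_contra hcon
    have hx' : (if x ∈ A then 1 else 0) = 1 := hx
    rw [if_neg hcon] at hx'
    exact absurd hx' (by norm_num)
  · intro h
    apply Subtype.ext
    apply map_eq_pure
    refine Filter.mem_of_superset h fun x hx => ?_
    show (if x ∈ A then 1 else 0) = 1
    rw [if_pos hx]

/-- Some forcing notion forces that `ω₁` is preserved and that CH holds; and CH implies that some set
has a countably compact functional extension. -/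
theorem result :
    (∃ (P : Type) (_ : Preorder P), Nonempty P ∧
      ∀ p : P, p ∈ OmegaOnePreserved P ∧ p ∈ CHHolds P) ∧
    (Cardinal.aleph.{0} 1 = Cardinal.continuum →
      ∃ (X Y : Type) (z o : X) (E : FunctionalExtension X Y z o), z ≠ o ∧
        CountablyCompact Y E.STop) := by
  refine ⟨?_, fun hCH => ?_⟩
  · obtain ⟨P, i, hn, h⟩ := Pool.Agent.Helper257.ForceCH.exists_forcing
    exact ⟨P, i, hn, fun p => ⟨(h p).1, (h p).2.2⟩⟩
  · obtain ⟨T, hT, hne, hcc⟩ := exists_good hCH
    have htop : (mk T hT hne).STop = top T := by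
      unfold FunctionalExtension.STop top
      congr 1
      ext U
      constructor
      · rintro ⟨A, rfl⟩
        exact ⟨A, mk_ext T hT hne A⟩
      · rintro ⟨A, rfl⟩
        exact ⟨A, (mk_ext T hT hne A).symm⟩
    refine ⟨ℕ, T, 0, 1, mk T hT hne, by norm_num, ?_⟩
    rw [htop]
    exact ⟨t2 T, fun U hU hcov => finite_subcover hcc U hU hcov⟩

end Pool.Agent.Results.MP_77d395_lc.ConsistentlyExists
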